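import Pool.Agent.Helper69.QT.Pre
import Pool.Agent.Helper61.QE.AsmE
import Pool.Agent.Helper68.QS.All

/-!
# Project QD (MP_d112a4_gt): stage 1 from the area invariance `StAIN`, `StAFD` and the lower bound
of the entropy
-/

set_option autoImplicit false

namespace Pool.Agent.Helper69.QT

open Pool.Agent.Helper61.QE (e_STR e_EFD e_FDX e_PE1 e_BND e_FUC e_YGR)

theorem oute (ain : Pool.Agent.Helper86.QA.StAIN) : Pool.Agent.Helper61.QE.OutE :=
  ⟨e_FDX, e_STR, e_PE1, e_BND ain, e_EFD, e_FUC, e_YGR⟩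

theorem st1_of' (ain : Pool.Agent.Helper86.QA.StAIN) (afd : Pool.Agent.Helper86.QA.StAFD) (enl : EnL) :
    Pool.Agent.Helper17.QD.StST1 := st1_of Pool.Agent.Helper68.QS.gpt_ (oute ain) ain afd enl

end Pool.Agent.Helper69.QT
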