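import Pool.Agent.Helper36.QT.M_VEQ
import Pool.Agent.Helper87.QT.M_ENL
import Pool.Agent.Helper86.QA.All3
import Pool.Agent.Helper85.QT.All

/-!
# Project QD (MP_d112a4_gt): the lower bound of the entropy for good quasifuchsian groups, and VEQ
-/

set_option autoImplicit false

open MeasureTheory Set Filter Topology Complex
open scoped ENNReal ComplexConjugate

namespace Pool.Agent.Helper69.QT

open Pool.Agent.Helper68.QC (Bel InvB Intw nq)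
open Pool.Agent.Helper61.QE (D Dx nuT muT En Et Kap FD Ab)
open Pool.Agent.Helper35.PM (SL Mat SurfaceGroup IsQF IsFuchsian Adapted pressureDist PressureLE HolDisc
  ent hs limitSet zt)
open Pool.Agent.Helper86.QA (FDOn ad TM ar2)
open Pool.Agent.Helper20.QD (Fuch IsSU mob Good Lam inn out cj)
open Pool.Agent.Helper69.QC (Maj Orb mb vv)

theorem eng {Γ : Type} [Group Γ] (ρ : Γ →* SL) (hG : Good ρ) (hQ : IsQF ρ)
    (tf : ∀ (γ : Γ) (n : ℕ), 1 ≤ n → γ ^ n = 1 → γ = 1) : 1 ≤ ent ρ := by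
  by_contra hcon
  push Not at hcon
  have hsum := Pool.Agent.Helper86.QA.tSUM Γ ρ hG.cc hQ.jordan 1 one_pos hcon
  obtain ⟨β, hβ⟩ := hG.jordan
  have hp : β 1 ∈ Lam ρ := by
    rw [← hβ.2.2]
    exact mem_image_of_mem _ (by simp)
  have hKD := (Pool.Agent.Helper86.QA.kd_pack' ρ (β 1) 0 hG hp tf).1
  have hns := Helper87.QT.hENL Pool.Agent.Helper86.QA.tACT Pool.Agent.Helper86.QA.tCHI
    Pool.Agent.Helper85.QT.tSB1 Pool.Agent.Helper85.QT.tSB6 Γ _ _ _ hKD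
  apply hns
  obtain ⟨B, hB⟩ : ∃ B : SL, B = Pool.Agent.Helper86.QA.gpq (β 1) 0 := ⟨_, rfl⟩
  rw [← hB]
  obtain ⟨h1, h2, h3, -⟩ := Pool.Agent.Helper35.PM.hs1_
  have hle : ∀ γ : Γ, hs (cj B ρ γ : Mat) ^ (-(1 : ℝ)) ≤
      hs (B : Mat) * hs (B : Mat) * hs (ρ γ : Mat) ^ (-(1 : ℝ)) := by
    intro γ
    have e1 : cj B ρ γ = B * ρ γ * B⁻¹ := rfl
    have e2 : ρ γ = B⁻¹ * cj B ρ γ * B := by rw [e1]; group
    have h4 : hs (ρ γ : Mat) ≤ hs (B : Mat) * hs (B : Mat) * hs (cj B ρ γ : Mat) := by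
      have e3 : (ρ γ : Mat) = ((B⁻¹ : SL) : Mat) * (cj B ρ γ : Mat) * (B : Mat) := by
        conv_lhs => rw [e2]
        simp only [Matrix.SpecialLinearGroup.coe_mul]
      rw [e3]
      refine (h1 _ _).trans ?_
      have h5 := h1 ((B⁻¹ : SL) : Mat) (cj B ρ γ : Mat)
      rw [h2] at h5
      have h6 := h3 B
      nlinarith
    have h7 := h3 (cj B ρ γ)
    have h8 := h3 (ρ γ)
    rw [Real.rpow_neg_one, Real.rpow_neg_one, ← div_eq_mul_inv, inv_eq_one_div,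
      div_le_div_iff₀ (by linarith) (by linarith)]
    linarith
  refine Summable.of_nonneg_of_le (fun γ => Real.rpow_nonneg (by linarith [h3 (cj B ρ γ)]) _) hle ?_
  exact hsum.mul_left _

theorem veq2 (hTGO : Pool.Agent.Helper86.QA.StTGO) (hWOU : Pool.Agent.Helper20.QD.StWOU)
    (hAFD : Pool.Agent.Helper86.QA.StAFD) (hTFR : Pool.Agent.Helper86.QA.StTFR)
    (hA1 : Pool.Agent.Helper86.QA.StA1) (hAIN : Pool.Agent.Helper86.QA.StAIN) (hDEF : DeF) : VeQ := by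
  intro g hg s F0 hs hF0
  obtain ⟨C0, hC0, H1⟩ := hA1
  have tf := hTFR g
  have hpos : 0 < ar2 F0 := (hAIN _ s s hs.fu hs.fu tf F0 F0 hF0 hF0).2
  refine ⟨C0 / ar2 F0 ^ 2, by positivity, ?_⟩
  intro φ k μ ρ hd
  obtain ⟨σ, hσ⟩ : ∃ σ : SurfaceGroup g →* SL, σ = s.comp φ.toMonoidHom := ⟨_, rfl⟩
  have hσa : ∀ γ, σ γ = s (φ γ) := fun γ => by rw [hσ]; rfl
  have hFu : Fuch σ := by
    refine ⟨fun γ => ?_, fun X => ?_, ?_⟩
    · rw [hσa]
      exact hs.fu.su _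
    · have h1 := (hs.fu.discrete X).preimage (φ.injective.injOn)
      refine h1.subset fun γ hγ => ?_
      have h2 : Pool.Agent.Helper35.PM.hs (σ γ : Mat) ≤ X := hγ
      rw [hσa] at h2
      exact h2
    · obtain ⟨r, hr, h1⟩ := hs.fu.cocompact
      refine ⟨r, hr, fun z hz => ?_⟩
      obtain ⟨γ, hγ⟩ := h1 z hz
      refine ⟨φ.symm γ, ?_⟩
      rw [hσa, MulEquiv.apply_symm_apply]
      exact hγ
  have hTM : TM σ ρ (nq μ) := by
    refine ⟨hFu, (nq μ).isHomeomorph, fun γ z => ?_⟩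
    have h1 := hd.eqv γ
    rw [hσa]
    exact ⟨h1.1 z, h1.2.1 z⟩
  obtain ⟨hGood, -, hinn, hout⟩ := hTGO _ σ ρ _ hTM
  obtain ⟨τ, G, hOS⟩ := hWOU _ ρ hGood
  obtain ⟨-, -, ⟨F', r, -, hF', -⟩, -⟩ := hAFD _ τ hOS.fuch tf
  have hFσ : FDOn (ad σ) (Metric.ball 0 1) F0 := by
    refine ⟨hF0.mD, hF0.sub, fun z hz => ?_⟩
    obtain ⟨y, hy1, hy2⟩ := hF0.ex z hz
    refine ⟨φ.symm y, ?_, fun γ hγ => ?_⟩
    · show mob (σ (φ.symm y)) z ∈ F0
      rw [hσa, MulEquiv.apply_symm_apply]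
      exact hy1
    · have h1 : mob (σ γ) z ∈ F0 := hγ
      rw [hσa] at h1
      have h2 := hy2 (φ γ) h1
      rw [← h2, MulEquiv.symm_apply_apply]
  have har : ar2 F0 = ar2 F' := (hAIN _ σ τ hFu hOS.fuch tf F0 F' hFσ hF').1
  have hFB : FDOn (fun γ z => mob (ρ γ) z) (inn (Lam ρ)) (nq μ '' F0) := by
    rw [hinn]
    refine ⟨(nq μ).measurableEmbedding.measurableSet_image.2 hF0.mD, image_mono hF0.sub, ?_⟩
    rintro _ ⟨z, hz, rfl⟩
    have hz' : ‖z‖ < 1 := by simpa using hz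
    have key : ∀ γ, mob (ρ γ) (nq μ z) = nq μ (mob (σ γ) z) := by
      intro γ
      exact ((hTM.eq γ z).2 (Pool.Agent.Helper86.QA.su_den _ (hFu.su γ) z hz'.le)).symm
    obtain ⟨y, hy1, hy2⟩ := hFσ.ex z hz
    refine ⟨y, ?_, fun γ hγ => ?_⟩
    · show mob (ρ y) (nq μ z) ∈ nq μ '' F0
      rw [key]
      exact mem_image_of_mem _ hy1
    · have h1 : mob (ρ γ) (nq μ z) ∈ nq μ '' F0 := hγ
      rw [key, (nq μ).injective.mem_set_image] at h1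
      exact hy2 γ h1
  obtain ⟨-, hmain⟩ := H1 _ ρ τ G tf hGood hOS F' (nq μ '' F0) hF' hFB
  have hE : ∫⁻ a in nq μ '' F0, ∫⁻ ξ in out (Lam ρ), ENNReal.ofReal (1 / ‖ξ - a‖ ^ 4) =
      En F0 μ := by
    unfold En
    rw [hout]
    simp only [one_div, inv_pow]
  rw [hE, ← har] at hmain
  have hent : 1 ≤ ent ρ := eng ρ hGood (hDEF g s φ k μ ρ hs hd) tf
  have hE0 : 0 ≤ (En F0 μ).toReal ^ 2 := by positivity
  have h3 : 2 - ent ρ ≤ C0 / ar2 F0 ^ 2 * (En F0 μ).toReal ^ 2 := by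
    have h4 : C0 / ar2 F0 ^ 2 * (En F0 μ).toReal ^ 2 = C0 * (En F0 μ).toReal ^ 2 / ar2 F0 ^ 2 := by
      ring
    rw [h4, le_div_iff₀ (by positivity)]
    exact hmain
  unfold vv
  rw [div_le_iff₀ (by linarith)]
  have h5 : 0 ≤ C0 / ar2 F0 ^ 2 * (En F0 μ).toReal ^ 2 := by positivity
  nlinarith

end Pool.Agent.Helper69.QT
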