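import Pool.Agent.Helper69.QT.GPT
import Pool.Agent.Helper69.QT.VEQ2

/-!
# Project QD (MP_d112a4_gt): stage 1 from `StAIN`, `StAFD`
-/

set_option autoImplicit false

namespace Pool.Agent.Helper69.QT

theorem st1_fin (ain : Pool.Agent.Helper86.QA.StAIN) (afd : Pool.Agent.Helper86.QA.StAFD) :
    Pool.Agent.Helper17.QD.StST1 :=
  st1 (pkg2 Pool.Agent.Helper68.QS.gpt_ (oute ain)) Pool.Agent.Helper21.QT.dTX3
    Pool.Agent.Helper68.QCA.REP2 def_
    (veq2 Pool.Agent.Helper86.QA.tTGO Pool.Agent.Helper20.QD.b_WOU afd Pool.Agent.Helper86.QA.tTFR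
      Pool.Agent.Helper86.QA.tA1 ain def_)
    Pool.Agent.Helper39.QT.dKBD Pool.Agent.Helper80.QT.dIVR Pool.Agent.Helper69.QC.thc_ n0_

end Pool.Agent.Helper69.QT
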