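import Pool.Agent.Helper69.QT.St2
import Pool.Agent.Helper61.QE.St6
import Pool.Agent.Helper68.QS.St2

/-!
# Project QD (MP_d112a4_gt): existence of the base package, from `StGPT`
-/

set_option autoImplicit false

open MeasureTheory Set Filter Topology Complex
open scoped ENNReal ComplexConjugate

namespace Pool.Agent.Helper69.QT

theorem pkg2 (gpt : Pool.Agent.Helper68.QS.StGPT) (oe : Pool.Agent.Helper61.QE.OutE) : St_PKG := by
  intro g hg
  obtain ⟨s, N, F0, F1, h, hFu, hFD0, hsub, hfin, hFuN, hFD1, hAb, hstr⟩ := gpt g hg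
  obtain ⟨c, hc, hst⟩ := hstr (1 / 2) (by norm_num) (by norm_num)
  have hAbN : Pool.Agent.Helper61.QE.Ab (s.comp N.subtype) h :=
    ⟨hAb.hol, fun γ => hAb.eqv γ, hAb.ne⟩
  refine ⟨s, N, F0, F1, h, c, 1 / 2, max 1 (Real.pi / 4 * Pool.Agent.Helper86.QA.ar2 F1), ?_⟩
  refine ⟨⟨((oe.fuc _ s).2 hFu).1.1, fun γ hγ z hz => hFu.free γ hγ z hz⟩,
    ((oe.fuc _ s).2 hFu).2 F0 hFD0, hsub, hAb, hc, by norm_num, by norm_num,
    lt_of_lt_of_le one_pos (le_max_left _ _), ?_, ?_, ?_⟩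
  · intro k hk κ hκ
    exact (oe.maj _ (s.comp N.subtype) F1 _ κ k hFuN hFD1 hAbN hk hκ).1
  · intro k hk κ hκ t ht
    have h1 := (oe.maj _ (s.comp N.subtype) F1 _ κ k hFuN hFD1 hAbN hk hκ).2.1 t ht
    have h2 := oe.bnd _ (s.comp N.subtype) F1 _ hFuN hFD1 hAbN k hk κ hκ t ht
    rw [ENNReal.le_ofReal_iff_toReal_le h1 (zero_le_one.trans (le_max_left _ _))]
    exact h2.trans (le_max_right _ _)
  · intro k hk κ hκ p hp hp1
    exact hst k hk κ hκ p hp hp1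

end Pool.Agent.Helper69.QT
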