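import Pool.Agent.Helper69.QT.ST1
import Pool.Agent.Helper69.QT.Pkg2
import Pool.Agent.Helper69.QC.All
import Pool.Agent.Helper69.QG.All
import Pool.Agent.Helper68.QCA.Main
import Pool.Agent.Helper86.QA.All3
import Pool.Agent.Helper21.QT.M_TX3
import Pool.Agent.Helper36.QT.M_VEQ
import Pool.Agent.Helper39.QT.M_DEF
import Pool.Agent.Helper39.QT.M_KBD
import Pool.Agent.Helper80.QT.M_IVR
import Pool.Agent.Helper94.QL.M_FUS
import Pool.Agent.Helper20.QD.AsmB

/-!
# Project QD (MP_d112a4_gt): stage 1, everything discharged except the outputs of the last parts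
-/

set_option autoImplicit false

namespace Pool.Agent.Helper69.QT

open Pool.Agent.Helper68.QC (nq)

theorem def_ : DeF := Pool.Agent.Helper39.QT.dDEF Pool.Agent.Helper86.QA.tTQF

theorem n0_ : ∀ z, nq (fun _ => 0) z = z := (Pool.Agent.Helper94.QL.hFUS Pool.Agent.Helper68.QCA.UNI).1

theorem st1_of (gpt : Pool.Agent.Helper68.QS.StGPT) (oe : Pool.Agent.Helper61.QE.OutE)
    (ain : Pool.Agent.Helper86.QA.StAIN) (afd : Pool.Agent.Helper86.QA.StAFD) (enl : EnL) :
    Pool.Agent.Helper17.QD.StST1 :=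
  st1 (pkg2 gpt oe) Pool.Agent.Helper21.QT.dTX3 Pool.Agent.Helper68.QCA.REP2 def_
    (Pool.Agent.Helper36.QT.dVEQ Pool.Agent.Helper86.QA.tTGO Pool.Agent.Helper20.QD.b_WOU afd
      Pool.Agent.Helper86.QA.tTFR Pool.Agent.Helper86.QA.tA1 ain enl def_)
    Pool.Agent.Helper39.QT.dKBD Pool.Agent.Helper80.QT.dIVR Pool.Agent.Helper69.QC.thc_ n0_

end Pool.Agent.Helper69.QT
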