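import Pool.Agent.Helper69.QT.St2
import Pool.Agent.Helper17.QD.Glue

/-!
# Project QD (MP_d112a4_gt): stage 1 (`StST1` of `Pool/Agent/Helper17/QD/Glue.lean`) from the base
package and Theorem C
-/

set_option autoImplicit false

open MeasureTheory Set Filter Topology Complex
open scoped ENNReal ComplexConjugate

namespace Pool.Agent.Helper69.QT

open Pool.Agent.Helper68.QC (nq Rep2)

theorem st1 (pkg : St_PKG) (tx3 : St_TX3) (rep : Rep2) (df : DeF) (ve : VeQ) (kbd : St_KBD)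
    (ivr : St_IVR) (thc : Pool.Agent.Helper69.QC.St_THC) (n0 : ∀ z, nq (fun _ => 0) z = z) :
    Pool.Agent.Helper17.QD.StST1 := by
  intro g hg
  obtain ⟨s, N, F0, F1, h, c, r0, M, hp⟩ := pkg g hg
  obtain ⟨B, hB, H⟩ := tx3 rep df ve kbd ivr thc n0 g hg s N F0 F1 h c r0 M hp
  exact ⟨s, hp.ff.fu, B, hB, fun U hU ρ μ k hS =>
    H U hU k μ ρ ⟨hS.k1, hS.bel, hS.inv, hS.int⟩ hS.out0⟩

end Pool.Agent.Helper69.QT
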