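import Pool.Agent.Helper61.QE.Defs
import Pool.Agent.Helper86.QA.St5
import Pool.Agent.Helper68.QC.St7
import Pool.Agent.Helper68.QC.Int
import Pool.Agent.Helper69.QC.St2

/-!
# Project QD (MP_d112a4_gt): the theorem T1 (thick end).  Statements with proofs in the docstrings.

`s` is a fixed Fuchsian representation of the surface group into `SU(1,1)` (the straightened cone
group of part C), `mob`, `nq`, `Bel`, `InvB`, `Intw` are those of `Pool/Agent/Helper68/QC/Defs.lean`,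
`En`, `Et`, `muT`, `nuT`, `Ab`, `Kap`, `FD` those of `Pool/Agent/Helper61/QE/Defs.lean`.
`Dx` is the outside of the closed disc (the thick end), `D` the inside.
-/

set_option autoImplicit false

open MeasureTheory Set Filter Topology Complex
open scoped ENNReal ComplexConjugate

namespace Pool.Agent.Helper69.QT

open Pool.Agent.Helper68.QC (Bel InvB Intw nq Fam2 Hol2 Rep2 Sol)
open Pool.Agent.Helper61.QE (D Dx nuT muT En Et Kap FD Ab)
open Pool.Agent.Helper35.PM (SL Mat SurfaceGroup IsQF IsFuchsian Adapted pressureDist PressureLE HolDisc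
  ent hs limitSet zt)
open Pool.Agent.Helper86.QA (FDOn ad)
open Pool.Agent.Helper20.QD (Fuch IsSU mob)
open Pool.Agent.Helper69.QC (Maj Orb mb vv)

/-- Fuchsian, and no element different from `1` has a fixed point in the disc. -/
structure FF {Γ : Type} [Group Γ] (s : Γ →* SL) : Prop where
  fu : Fuch s
  fr : ∀ γ, γ ≠ 1 → ∀ z ∈ D, mob (s γ) z ≠ z

/-- `ρ` is the deformation of `s ∘ φ` with coefficient `μ` (which is invariant under the group of
`s`). -/
structure Def {g : ℕ} (s : SurfaceGroup g →* SL) (φ : SurfaceGroup g ≃* SurfaceGroup g) (k : ℝ)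
    (μ : ℂ → ℂ) (ρ : SurfaceGroup g →* SL) : Prop where
  lt : k < 1
  bel : Bel k μ
  inv : ∀ x, InvB (s x) μ
  eqv : ∀ x, Intw (s (φ x)) (ρ x) (nq μ)

/-- Entrywise complex conjugation. -/
noncomputable def bar {Γ : Type} [Group Γ] (ρ : Γ →* SL) : Γ →* SL :=
  (Matrix.SpecialLinearGroup.map (starRingEnd ℂ)).comp ρ

/-- The base package: Fuchsian representation `s` of the surface group, abelian integral `h` of the
disc (for the whole group), subgroup `N` with fundamental domain `F1`, fundamental domain `F0 ⊆ F1`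
of the whole group; the energy (over `F1`) is bounded, it has holomorphic majorants, and
strictness holds at all points of `Orb`. -/
structure Pkg {g : ℕ} (s : SurfaceGroup g →* SL) (N : Subgroup (SurfaceGroup g)) (F0 F1 : Set ℂ)
    (h : ℂ → ℂ) (c r0 M : ℝ) : Prop where
  ff : FF s
  fd0 : FDOn (ad s) (Metric.ball 0 1) F0
  sub : F0 ⊆ F1
  ab : Ab s h
  hc : 0 < c
  hr : 0 < r0
  hr1 : r0 < 1
  hM : 0 < M
  maj : ∀ k < 1, ∀ κ, Kap (s.comp N.subtype) k κ → Maj (Et F1 κ h)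
  bnd : ∀ k < 1, ∀ κ, Kap (s.comp N.subtype) k κ → ∀ t ∈ Metric.ball (0 : ℂ) 1,
    En F1 (muT κ h t) ≤ ENNReal.ofReal M
  str : ∀ k < 1, ∀ κ, Kap (s.comp N.subtype) k κ → ∀ p ∈ Orb, p ∈ Metric.ball (0 : ℂ) 1 →
    c * Et F1 κ h p ^ 2 ≤ Et F1 κ h p - Real.circleAverage (fun ζ => Et F1 κ h (mb p ζ)) 0 r0

/-- Existence of the base package (assembly: helper69, from St_GPA, straightening (helper68),
strictness (helper61), transfer (helper57)). -/
def St_PKG : Prop := ∀ g : ℕ, 2 ≤ g → ∃ (s : SurfaceGroup g →* SL) (N : Subgroup (SurfaceGroup g))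
  (F0 F1 : Set ℂ) (h : ℂ → ℂ) (c r0 M : ℝ), Pkg s N F0 F1 h c r0 M

/-- **ENL** (the entropy of a quasifuchsian group is at least one; about 250 lines).
Write `A = ρ γ`, `Nn A Q = tr (A Q A*)`, `hs A = ‖A‖²`, `fr` = squared Frobenius distance, `sph`,
`act`, `orb`, `density` as in `Pool/Agent/Helper20/QD/Defs.lean`; the facts `QD.StLMX`, `QD.StLLS`,
`QD.StLQC` are proved there (all of part B is).
(1) STRONG CONICAL LIMIT POINTS: there is `K1` such that for every `Q ∈ limitSet ρ` and every `X`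
there is `γ` with `X < hs (ρ γ)` and `Nn (ρ γ) Q * hs (ρ γ) ≤ K1`.  Let `C`, `K` be as in
`ConvexCocompact`, `P0 ∈ C`.  `Q` is a limit of the orbit points `orb ρ γ_n = density (A_n A_n*)`,
hence also of `density (A_n P0 A_n*) ∈ C` (`QD.StLLS`, `QD.StLMX (3)`:
`fr (O A) (act A P) ≤ 2/(hs A * tr (A P A*))`).  So for `0 < t < 1` the matrix
`P_t = t P0 + (1-t) Q` is the limit of the points `t P0 + (1-t) act A_n P0` of `C`, it is positive
definite of trace one, and (openness of `PosDef`, compactness of `K`: replace `K` by a compact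
neighbourhood `K'` inside the positive definite matrices, or pass to a limit: only finitely many
`γ` move a neighbourhood of `P_t` into `K'` because `ρ` is discrete) there is `γ` with
`P' = act (ρ γ) P_t ∈ K`.  Let `m ≤ λ_min(P')`, `0 < m`, for all `P' ∈ K`, `θ = tr (A P_t A*)`,
`A P_t A* = θ P'`.  Determinants: `det P_t = θ² det P'`, and `det P_t` is a polynomial in `t`
vanishing at `t = 0` (`det Q = 0`), so `det P_t ≤ t` (or `C0 t`), so
`θ ≤ K2 √t`.  Since `A Q A* ≤ (1-t)⁻¹ A P_t A*` we get `Nn A Q ≤ 2 θ` for `t ≤ 1/2`.  On the other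
hand `P_t = θ A⁻¹ P' A⁻¹*`, so `1 = tr P_t ≥ θ m hs (A⁻¹) = θ m hs A`.  Hence
`Nn A Q * hs A ≤ 2 θ hs A ≤ 2/m`.  Finally `Nn A Q ≥ 1/hs A` (smallest singular value;
or `Nn A Q ≥ hs A fr (O A⁻¹) Q/2` is not enough, use: `Q = v v*`, `‖v‖ = 1`, `v = A⁻¹ A v`,
`1 ≤ hs A⁻¹ ‖A v‖²`, `hs A⁻¹ = hs A`), so `hs A ≥ 1/Nn A Q ≥ 1/(2 K2 √t) > X` for small `t`.
(2) COVERING: by `QD.StLMX (2)` (second part) `fr (orb ρ γ⁻¹) Q ≤ 2 Nn A Q/hs A ≤ 2 K1/hs A²`, so
`limitSet ρ ⊆ ⋃_{hs (ρ γ) > X} {Q : √fr (orb ρ γ⁻¹) Q ≤ √(2 K1)/hs (ρ γ)}` for every `X`.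
(3) Suppose `ent ρ < 1`.  `StSUM` (helper86, `Pool/Agent/Helper86/QA/St4.lean`) with `s = 1`:
`Σ_γ hs (ρ γ)⁻¹ < ∞`.  `limitSet ρ` is homeomorphic to the circle: connected with two different
points `Q1, Q2`, `d = √fr Q1 Q2 > 0`.  The function `Q ↦ √fr Q1 Q` is 1-Lipschitz for `√fr`, so the
image of `limitSet ρ` is connected, contains `[0,d]` and is covered by the intervals of centre
`√fr Q1 (orb ρ γ⁻¹)` and length `2 √(2 K1)/hs (ρ γ)`, `hs (ρ γ) > X`.  So (measure of the union)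
`d ≤ 2 √(2 K1) Σ_{hs (ρ γ) > X} hs (ρ γ)⁻¹`, which tends to `0` as `X → ∞` (tails of a summable
family; `{hs ≤ X}` is finite): contradiction. -/
def St_ENL : Prop := Pool.Agent.Helper86.QA.StSUM →
  ∀ (Γ : Type) [Group Γ] (ρ : Γ →* SL), IsQF ρ → 1 ≤ ent ρ

/-- conclusion of ENL -/
def EnL : Prop := ∀ (Γ : Type) [Group Γ] (ρ : Γ →* SL), IsQF ρ → 1 ≤ ent ρ

/-- **CJI** (complex conjugation preserves everything; about 200 lines).  `bar ρ` is the entrywise
conjugate.  (1) `hs (bar ρ γ) = hs (ρ γ)`, `tl (bar ρ γ) = tl (ρ γ)` (the eigenvalues are the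
conjugates), so `len`, `classes`, `num`, `ent`, `avg` do not change.  (2) `IsQF`: faithful and
discrete are clear; `density` of the conjugate is the conjugate of `density`; the limit set of
`bar ρ` is the image of the limit set under the homeomorphism `Q ↦ conj Q` (entrywise; cluster points
are mapped to cluster points by a homeomorphism); convex cocompact: images of `C`, `K` (entrywise
conjugation is real linear, preserves positive definiteness and trace one).  (3) With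
`U' ρ = U (bar ρ)`: `J (U (bar ρ)) (bar ρ) (bar σ) = J (U' ρ) ρ σ`, so `speedSq` of `bar ∘ c` for `U` is
`speedSq` of `c` for `U'`; smooth paths go to smooth paths; by induction
`PressureLE U' ρ σ B → PressureLE U (bar ρ) (bar σ) B` (in the case `conj` conjugate the matrix `B`).
(4) `IsFuchsian`: conjugate the matrix (real entries are fixed). -/
def St_CJI : Prop := ∀ (g : ℕ) (U : (SurfaceGroup g →* SL) → Ultrafilter ℝ),
  (∀ ρ, IsQF ρ → Adapted (U ρ) ρ) →
  (∀ ρ : SurfaceGroup g →* SL, bar (bar ρ) = ρ) ∧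
  (∀ ρ : SurfaceGroup g →* SL, IsQF ρ → IsQF (bar ρ)) ∧
  (∀ ρ : SurfaceGroup g →* SL, IsFuchsian ρ → IsFuchsian (bar ρ)) ∧
  (∀ ρ : SurfaceGroup g →* SL, IsQF ρ → Adapted (U (bar ρ)) ρ) ∧
  ∀ ρ σ : SurfaceGroup g →* SL,
    pressureDist U (bar ρ) (bar σ) ≤ pressureDist (fun τ => U (bar τ)) ρ σ

/-- **AUI** (automorphisms of the surface group preserve everything; about 120 lines; not needed for
T1, useful elsewhere).  `ρ ∘ φ`: `φ` permutes the conjugacy classes (`len (ρ ∘ φ) c = len ρ (φ c)`,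
the length only depends on the class), so `num`, `ent`, `avg` do not change; the limit set of `ρ ∘ φ`
is that of `ρ` (cluster points along `cofinite`, `φ` is a bijection).  As in CJI. -/
def St_AUI : Prop := ∀ (g : ℕ) (U : (SurfaceGroup g →* SL) → Ultrafilter ℝ)
  (φ : SurfaceGroup g ≃* SurfaceGroup g), (∀ ρ, IsQF ρ → Adapted (U ρ) ρ) →
  (∀ ρ : SurfaceGroup g →* SL, IsQF ρ → IsQF (ρ.comp φ.toMonoidHom)) ∧
  (∀ ρ : SurfaceGroup g →* SL, IsFuchsian ρ → IsFuchsian (ρ.comp φ.toMonoidHom)) ∧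
  (∀ ρ : SurfaceGroup g →* SL, IsQF ρ → Adapted (U (ρ.comp φ.toMonoidHom)) ρ) ∧
  ∀ ρ σ : SurfaceGroup g →* SL,
    pressureDist U (ρ.comp φ.toMonoidHom) (σ.comp φ.toMonoidHom) ≤
      pressureDist (fun τ => U (τ.comp φ.toMonoidHom)) ρ σ

/-- **SUF** (representations into `SU(1,1)` are Fuchsian in the sense of `IsFuchsian`; about 40 lines).
Cayley transform `B = (1/√(2i)) [[1, i... ]]`: any `B ∈ SL(2,ℂ)` mapping the disc to the upper half
plane, e.g. `B = ω⁻¹ [[i, i],[-1, 1]]` with `ω² = 2i`: for `A = [[a,b],[conj b, conj a]]`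
compute `B A B⁻¹` and check that the entries are fixed by complex conjugation. -/
def St_SUF : Prop := ∀ (Γ : Type) [Group Γ] (ρ : Γ →* SL), (∀ γ, IsSU (ρ γ)) → IsFuchsian ρ

/-- **IVR** (elementary facts about invariant coefficients and intertwining; about 120 lines).
`A ∈ SU(1,1)` preserves the disc, the circle and the outside of the closed disc (where the denominator
is not zero, which is all but one point): `‖den A z‖² - ‖num A z‖² = 1 - ‖z‖²`.
(1), (2) restriction of an invariant coefficient to the disc and to the complement of the disc: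
evaluate at almost every `z` (`den A z ≠ 0`); (3) sums and multiples of invariant coefficients;
(4) if the identity intertwines `A` and `B` then `B = ± A`, so `B ∈ SU(1,1)`: the maps
`mob A`, `mob B` agree off the pole, compare at three points
(or: `den A z = 0 ↔ den B z = 0` and the equality of quotients of polynomials gives
`B = λ A`, `λ² = 1`); (5) `nuT h` is invariant for an abelian integral `h` (differentiate
`h (mob A z) = h z + c`: `h'(mob A z) = den² h'(z)`, at points outside the closed disc use the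
reflected point: `rf (mob A z) = mob A (rf z)`), measurable, of norm at most one, zero on the closed
disc. -/
def St_IVR : Prop :=
  (∀ (A : SL) (μ : ℂ → ℂ), IsSU A → InvB A μ → InvB A (Set.indicator D μ)) ∧
  (∀ (A : SL) (μ : ℂ → ℂ), IsSU A → InvB A μ → InvB A (Set.indicator Dᶜ μ)) ∧
  (∀ (A : SL) (μ ν : ℂ → ℂ) (a b : ℂ), InvB A μ → InvB A ν →
    InvB A (fun z => a * μ z + b * ν z)) ∧
  (∀ A B : SL, IsSU A → Intw A B (fun z => z) → IsSU B) ∧
  (∀ (Γ : Type) [Group Γ] (s : Γ →* SL) (h : ℂ → ℂ), (∀ γ, IsSU (s γ)) → Ab s h →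
    (∀ γ, InvB (s γ) (nuT h)) ∧ Measurable (nuT h) ∧ (∀ z, ‖nuT h z‖ ≤ 1) ∧
    ∀ z, ‖z‖ ≤ 1 → nuT h z = 0)

/-- **DEF** (deformations are quasifuchsian; about 60 lines).  `StTQF` (helper86,
`Pool/Agent/Helper86/QA/St4.lean`) for `σ = s ∘ φ`, `w = nq μ`: `Fuch (s ∘ φ)` is clear (`φ` is a
bijection), `Intw` gives the equivariance, and if `s (φ γ) = ± 1` then `mob` of it is the identity, so
`φ γ = 1` by freeness. -/
def St_DEF : Prop := Pool.Agent.Helper86.QA.StTQF →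
  ∀ (g : ℕ) (s : SurfaceGroup g →* SL) (φ : SurfaceGroup g ≃* SurfaceGroup g) (k : ℝ) (μ : ℂ → ℂ)
    (ρ : SurfaceGroup g →* SL), FF s → Def s φ k μ ρ → IsQF ρ

/-- conclusion of DEF -/
def DeF : Prop := ∀ (g : ℕ) (s : SurfaceGroup g →* SL) (φ : SurfaceGroup g ≃* SurfaceGroup g)
  (k : ℝ) (μ : ℂ → ℂ) (ρ : SurfaceGroup g →* SL), FF s → Def s φ k μ ρ → IsQF ρ

/-- **VEQ** (the defect is at most a constant times the square of the energy; about 150 lines).
Let `w = nq μ`, `σ = s ∘ φ`.  `StTGO`: `ρ` is `Good`, `inn (Lam ρ) = w '' D`, `out (Lam ρ) = w '' Dx`.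
`QD.StWOU` (part B, proved): `OutSide ρ τ G` for some `τ`, `G`; `τ` is `Fuch`, and `StAFD` gives a
fundamental domain `F0'` for `τ` (`StTFR`: torsion free).  `FB = w '' F0` is a fundamental domain for
`ρ` on `w '' D`: measurable (`w` is a homeomorphism), and `mob (ρ x) (w z) = w (mob (s (φ x)) z)` (the
denominators do not vanish on the disc), so `∃! x` for `s ∘ φ` follows from `∃! y` for `s`.
`StA1`: `(2 - ent ρ) ar2(F0')² ≤ C0 E²`, `E = (∫_{FB} ∫_{out} ..).toReal = (En F0 μ).toReal`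
(`ofReal (1/‖ξ-a‖⁴) = ofReal (‖ξ-a‖⁻¹ ^ 4)`).  `StAIN` for `σ = s ∘ φ` and `τ`:
`ar2 F0' = ar2 F0''` where `F0''` is a fundamental domain of `s ∘ φ`: `F0` itself.  So with
`C = C0/(ar2 F0)²`: `2 - ent ρ ≤ C E²`, and `vv ρ = (2 - ent ρ)/ent ρ ≤ C E²` by ENL
(if `2 - ent ρ < 0` the left side is negative). -/
def St_VEQ : Prop := Pool.Agent.Helper86.QA.StTGO → Pool.Agent.Helper20.QD.StWOU →
  Pool.Agent.Helper86.QA.StAFD → Pool.Agent.Helper86.QA.StTFR → Pool.Agent.Helper86.QA.StA1 →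
  Pool.Agent.Helper86.QA.StAIN → EnL → DeF →
  ∀ (g : ℕ), 2 ≤ g → ∀ (s : SurfaceGroup g →* SL) (F0 : Set ℂ), FF s →
    FDOn (ad s) (Metric.ball 0 1) F0 → ∃ C : ℝ, 0 ≤ C ∧
    ∀ (φ : SurfaceGroup g ≃* SurfaceGroup g) (k : ℝ) (μ : ℂ → ℂ) (ρ : SurfaceGroup g →* SL),
      Def s φ k μ ρ → vv ρ ≤ C * (En F0 μ).toReal ^ 2

/-- conclusion of VEQ -/
def VeQ : Prop := ∀ (g : ℕ), 2 ≤ g → ∀ (s : SurfaceGroup g →* SL) (F0 : Set ℂ), FF s →
    FDOn (ad s) (Metric.ball 0 1) F0 → ∃ C : ℝ, 0 ≤ C ∧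
    ∀ (φ : SurfaceGroup g ≃* SurfaceGroup g) (k : ℝ) (μ : ℂ → ℂ) (ρ : SurfaceGroup g →* SL),
      Def s φ k μ ρ → vv ρ ≤ C * (En F0 μ).toReal ^ 2

/-- **KBD** (the universal bound along a disc; about 20 lines).  `f1_`
(`Pool/Agent/Helper35/PQF/All.lean`), as in the theorem `universal` there; `zt L = k` has the solution
`L = log ((1+k)/(1-k))` (`exists_zt` in `Pool/Agent/Helper12/PM/M_F3.lean`). -/
def St_KBD : Prop := ∀ k : ℝ, 0 < k → k < 1 → ∃ L : ℝ, 0 ≤ L ∧ zt L = (k : ℂ) ∧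
  ∀ g : ℕ, 2 ≤ g → ∀ U : (SurfaceGroup g →* SL) → Ultrafilter ℝ,
    (∀ ρ, IsQF ρ → Adapted (U ρ) ρ) → ∀ f : ℂ → SurfaceGroup g →* SL, HolDisc f →
      pressureDist U (f 0) (f (k : ℂ)) ≤ ENNReal.ofReal (Real.sqrt (L * (L + 2)))

/-- The bound at the base `s`: every deformation of `s ∘ φ` of dilatation at most `k` at the outer
end is at bounded pressure distance from the Fuchsian locus. -/
def T1at (g : ℕ) (s : SurfaceGroup g →* SL) : Prop :=
  ∀ k < 1, ∃ D0 : ℝ, 0 ≤ D0 ∧ ∀ U : (SurfaceGroup g →* SL) → Ultrafilter ℝ,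
    (∀ ρ, IsQF ρ → Adapted (U ρ) ρ) → ∀ (φ : SurfaceGroup g ≃* SurfaceGroup g) (k' : ℝ)
      (μ : ℂ → ℂ) (ρ : SurfaceGroup g →* SL), Def s φ k' μ ρ → (∀ z, 1 ≤ ‖z‖ → ‖μ z‖ ≤ k) →
      ∃ σ : SurfaceGroup g →* SL, IsQF σ ∧ IsFuchsian σ ∧ pressureDist U ρ σ ≤ ENNReal.ofReal D0

/-- **T1M** (the mirror image; about 80 lines).  Let `ρ` be the deformation of `bar s ∘ φ` with
coefficient `μ`.  `μ' z = conj (μ (conj z))`: `nq μ' z = conj (nq μ (conj z))` (uniqueness; this is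
`StSYR`-like: the map `z ↦ conj (nq μ (conj z))` is a homeomorphism fixing `0` and `1`, and it solves
the Beltrami equation of `μ'`: composition with conjugations of a `Sol`; hypothesis `hCJ`).
`Intw (s (φ x)) (bar ρ x) (nq μ')` follows from `Intw (bar s (φ x)) (ρ x) (nq μ)` by conjugation,
similarly `InvB` (the measure is invariant under conjugation).  Apply `T1at g s` to `bar ρ` with
`U' τ = U (bar τ)`, and CJI. -/
def St_T1M : Prop :=
  (∀ k < 1, ∀ μ, Bel k μ → ∀ z, nq (fun u => conj (μ (conj u))) z = conj (nq μ (conj z))) →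
  St_CJI → ∀ (g : ℕ) (s : SurfaceGroup g →* SL), T1at g s → T1at g (bar s)

/-- **CJQ** (the normalised solution of the conjugate coefficient; about 80 lines).  The map
`W z = conj (nq μ (conj z))` is a homeomorphism of the plane fixing `0`, `1`; if `a, b` are the weak
derivatives of `f = nq μ`, then those of `W` are `conj (a (conj z))`, `conj (b (conj z))` (change of
variables `z ↦ conj z` in the integrals against test functions: `dz φ* = conj (dz φ) ∘ conj` for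
`φ* z = conj (φ (conj z))`), so `Sol μ' univ W`; `StUNI` with `S = ∅`. -/
def St_CJQ : Prop := Pool.Agent.Helper68.QC.StEX → Pool.Agent.Helper68.QC.StUNI →
  ∀ k < 1, ∀ μ, Bel k μ → ∀ z, nq (fun u => conj (μ (conj u))) z = conj (nq μ (conj z))

/-- **TX1** (from both ends to the inner end; about 200 lines).  Let `κ = indicator D μ`,
`μo = indicator Dᶜ μ`, so `μ = κ + μo`, `‖μo‖ ≤ k`.  `k1 = (1+k)/2`,
`m(w) = (k1 - w)/(k1 (1 - k1 w))` (`1 - k1 w ≠ 0` on the disc): holomorphic, `m 0 = 1`, `m k1 = 0`,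
`‖m w‖ ≤ 1/k1` on the disc (`‖k1 - w‖ ≤ ‖1 - k1 w‖`).  The family `μ1 z w = κ + m(w) μo` (independent of
`z`) is `Fam2` (`‖μ1 z w y‖ ≤ max k' (k/k1) < 1`), invariant (IVR).  `Rep2` with `ρ₀ = s ∘ φ` and base point
`ρ` (`μ1 0 0 = μ`) gives `R z w` with `R 0 0 = ρ`, and `f w = R 0 w` is a `HolDisc` (the entries are
holomorphic by `Hol2`; DEF for the coefficient `μ1 0 w`, `InvB (s (φ x))` for all `x` is `InvB (s y)` for
all `y`).  KBD for `k1`: `pressureDist U (f 0) (f k1) ≤ √(L(L+2))`, and `f k1` is the deformation with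
coefficient `μ1 0 k1 = κ`. -/
def St_TX1 : Prop := Rep2 → DeF → St_KBD → St_IVR →
  ∀ k : ℝ, 0 < k → k < 1 → ∃ B : ℝ, 0 ≤ B ∧
    ∀ g : ℕ, 2 ≤ g → ∀ (s : SurfaceGroup g →* SL), FF s → ∀ U : (SurfaceGroup g →* SL) → Ultrafilter ℝ,
    (∀ ρ, IsQF ρ → Adapted (U ρ) ρ) → ∀ (φ : SurfaceGroup g ≃* SurfaceGroup g) (k' : ℝ)
      (μ : ℂ → ℂ) (ρ : SurfaceGroup g →* SL), Def s φ k' μ ρ → (∀ z, 1 ≤ ‖z‖ → ‖μ z‖ ≤ k) →
      ∃ ρ1 : SurfaceGroup g →* SL, Def s φ k' (Set.indicator D μ) ρ1 ∧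
        pressureDist U ρ ρ1 ≤ ENNReal.ofReal B

/-- **TX2** (Theorem C applied; about 250 lines).  `κ` vanishes outside the open disc.
`k2 = max k' (1/2)`, `a(z) = (k2 - z)/(k2 (1 - k2 z))`, holomorphic on the disc, `a 0 = 1`, `a k2 = 0`;
for `‖z‖ ≤ r < 1`: `‖a(z) κ y‖ ≤ ‖(k2 - z)/(1 - k2 z)‖ ≤ (r + k2)/(1 + r k2) < 1` (St_MBB of
`Pool/Agent/Helper69/QC/St.lean`, or directly).  The family `μ2 z w = muT (a(z) κ) h w` (it is `a(z) κ` on
the disc and `w nuT h` outside the closed disc, `0` on the circle: the norm is at most the maximum of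
the two norms) is `Fam2`, invariant (IVR).  `Rep2` with `ρ₀ = s ∘ φ` and base point `ρ` (`μ2 0 0 = κ`)
gives `F z w`, `F 0 0 = ρ`; `HolDisc` in each variable (`Hol2`, DEF).  `E z w = Et F1 (a(z) κ) h w`.
Hypotheses of `St_THC` (constants `M c r0 C`, `C` from VEQ for `s`, `F0`): `Kap (s.comp N.subtype)
((r+k2)/(1+r k2)) (a(z) κ)` for `r = ‖z‖`; `Maj` is `Pkg.maj`; `E z w ≤ M` is `Pkg.bnd` (`toReal`);
strictness is `Pkg.str`; `vv (F z w) ≤ C (En F0 (μ2 z w)).toReal² ≤ C (E z w)²`: VEQ, monotonicity of the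
integral in the domain (`F0 ⊆ F1`, so the images under `nq` are contained in each other), finiteness
from `Pkg.bnd`.  So `pressureDist U (F 0 0) (F (zt L) 0) ≤ D` with `zt L = k2` (KBD gives such an `L`).
`F k2 0` is the deformation with coefficient `muT 0 h 0 = 0` and `nq 0 = id`, so `F k2 0` has values in
`SU(1,1)` (IVR (4)): it is Fuchsian (SUF). -/
def St_TX2 : Prop := Rep2 → DeF → VeQ → St_KBD → St_IVR → St_SUF →
  Pool.Agent.Helper69.QC.St_THC → (∀ z, nq (fun _ => 0) z = z) →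
  ∀ (g : ℕ), 2 ≤ g → ∀ (s : SurfaceGroup g →* SL) (N : Subgroup (SurfaceGroup g)) (F0 F1 : Set ℂ)
    (h : ℂ → ℂ) (c r0 M : ℝ), Pkg s N F0 F1 h c r0 M → ∃ B : ℝ, 0 ≤ B ∧
    ∀ U : (SurfaceGroup g →* SL) → Ultrafilter ℝ,
    (∀ ρ, IsQF ρ → Adapted (U ρ) ρ) → ∀ (φ : SurfaceGroup g ≃* SurfaceGroup g) (k' : ℝ)
      (κ : ℂ → ℂ) (ρ : SurfaceGroup g →* SL), Def s φ k' κ ρ → (∀ z, 1 ≤ ‖z‖ → κ z = 0) →
      ∃ σ : SurfaceGroup g →* SL, IsQF σ ∧ IsFuchsian σ ∧ pressureDist U ρ σ ≤ ENNReal.ofReal B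

/-- Triangle inequality. -/
theorem dist_tri {Γ : Type} [Group Γ] (U : (Γ →* SL) → Ultrafilter ℝ) (ρ σ τ : Γ →* SL) :
    pressureDist U ρ τ ≤ pressureDist U ρ σ + pressureDist U σ τ := by
  unfold pressureDist
  rw [ENNReal.sInf_add, le_iInf₂_iff]
  intro a ha
  rw [ENNReal.add_sInf, le_iInf₂_iff]
  intro b hb
  exact sInf_le (PressureLE.trans ρ σ τ a b ha hb)

/-- Assembly of the bound at the base. -/
theorem t1a (tx1 : St_TX1) (tx2 : St_TX2) (rep : Rep2) (df : DeF)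
    (ve : VeQ) (kbd : St_KBD) (ivr : St_IVR) (suf : St_SUF) (thc : Pool.Agent.Helper69.QC.St_THC)
    (n0 : ∀ z, nq (fun _ => 0) z = z) (g : ℕ) (hg : 2 ≤ g) (s : SurfaceGroup g →* SL)
    (N : Subgroup (SurfaceGroup g)) (F0 F1 : Set ℂ) (h : ℂ → ℂ) (c r0 M : ℝ)
    (hp : Pkg s N F0 F1 h c r0 M) : T1at g s := by
  intro k hk
  obtain ⟨B2, hB2, H2⟩ := tx2 rep df ve kbd ivr suf thc n0 g hg s N F0 F1 h c r0 M hp
  obtain ⟨B1, hB1, H1⟩ := tx1 rep df kbd ivr (max k (1 / 2)) (by positivity)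
    (max_lt hk (by norm_num))
  refine ⟨B1 + B2, by positivity, ?_⟩
  intro U hU φ k' μ ρ hd ho
  obtain ⟨ρ1, hd1, hb1⟩ := H1 g hg s hp.ff U hU φ k' μ ρ hd
    (fun z hz => (ho z hz).trans (le_max_left _ _))
  obtain ⟨σ, h1, h2, h3⟩ := H2 U hU φ k' _ ρ1 hd1 (fun z hz => by
    rw [Set.indicator_of_notMem]
    simpa [Pool.Agent.Helper61.QE.D] using hz)
  refine ⟨σ, h1, h2, (dist_tri U ρ ρ1 σ).trans ?_⟩
  rw [ENNReal.ofReal_add hB1 hB2]
  exact add_le_add hb1 h3

/-- **T1**: there is a Fuchsian representation `s` for which the bound holds, and also for its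
mirror image. -/
def St_T1 : Prop := ∀ g : ℕ, 2 ≤ g → ∃ s : SurfaceGroup g →* SL, FF s ∧ T1at g s ∧ T1at g (bar s)

/-- Assembly of T1. -/
theorem t1 (pkg : St_PKG) (tx1 : St_TX1) (tx2 : St_TX2) (t1m : St_T1M) (cjq : St_CJQ) (cji : St_CJI)
    (ex : Pool.Agent.Helper68.QC.StEX) (uni : Pool.Agent.Helper68.QC.StUNI) (rep : Rep2) (df : DeF)
    (ve : VeQ) (kbd : St_KBD) (ivr : St_IVR) (suf : St_SUF) (thc : Pool.Agent.Helper69.QC.St_THC)
    (n0 : ∀ z, nq (fun _ => 0) z = z) : St_T1 := by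
  intro g hg
  obtain ⟨s, N, F0, F1, h, c, r0, M, hp⟩ := pkg g hg
  have h1 := t1a tx1 tx2 rep df ve kbd ivr suf thc n0 g hg s N F0 F1 h c r0 M hp
  exact ⟨s, hp.ff, h1, t1m (cjq ex uni) cji g s h1⟩

end Pool.Agent.Helper69.QT
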