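import Pool.Agent.Helper69.QT.St

/-!
# Project QD (MP_d112a4_gt): stage 1 in the form of `Pool/Agent/Helper17/QD/Glue.lean` (StST1)
-/

set_option autoImplicit false

open MeasureTheory Set Filter Topology Complex
open scoped ENNReal ComplexConjugate

namespace Pool.Agent.Helper69.QT

open Pool.Agent.Helper68.QC (Bel InvB Intw nq Fam2 Hol2 Rep2 Sol)
open Pool.Agent.Helper61.QE (D Dx nuT muT En Et Kap FD Ab)
open Pool.Agent.Helper35.PM (SL Mat SurfaceGroup IsQF IsFuchsian Adapted pressureDist PressureLE HolDisc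
  ent hs limitSet zt)
open Pool.Agent.Helper86.QA (FDOn ad)
open Pool.Agent.Helper20.QD (Fuch IsSU mob)
open Pool.Agent.Helper69.QC (Maj Orb mb vv)

/-- **TX3** (Theorem C applied; about 250 lines).  `φ` is the identity.  `κ` vanishes outside the open
disc.  `k2 = max k' (1/2)`, `a(z) = (k2 - z)/(k2 (1 - k2 z))`, holomorphic on the disc, `a 0 = 1`,
`a k2 = 0`; for `‖z‖ ≤ r < 1`: `‖a(z) κ y‖ ≤ ‖(k2 - z)/(1 - k2 z)‖ ≤ (r + k2)/(1 + r k2) < 1` (`St_MBB` of
`Pool/Agent/Helper69/QC/St.lean`, proved, or directly).  The family `μ2 z w = muT (a(z) κ) h w` (it is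
`a(z) κ` on the disc and `w nuT h` outside the closed disc, `0` on the circle: the norm is at most the
maximum of the two norms) is `Fam2`, invariant (IVR (3), (5)).  `Rep2` with `ρ₀ = s` and base point `ρ`
(`μ2 0 0 = κ`) gives `F z w`, `F 0 0 = ρ`; `HolDisc` in each variable (`Hol2`, DEF with
`φ = MulEquiv.refl`).  `E z w = Et F1 (a(z) κ) h w`.  Hypotheses of `St_THC` (constants `M c r0 C`, `C`
from VEQ for `s`, `F0`; it gives `B` before `κ` is chosen): `Kap (s.comp N.subtype)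
((r+k2)/(1+r k2)) (a(z) κ)` for `r = ‖z‖`; `Maj` is `Pkg.maj`; `E z w ≤ M` is `Pkg.bnd` (`toReal`);
strictness is `Pkg.str`; `vv (F z w) ≤ C (En F0 (μ2 z w)).toReal² ≤ C (E z w)²`: VEQ, monotonicity of the
integral in the domain (`F0 ⊆ F1`, so the images under `nq` are contained in each other), finiteness
from `Pkg.bnd`.  So `pressureDist U (F 0 0) (F (zt L) 0) ≤ B` with `zt L = k2` (KBD gives such an `L`).
`F k2 0` is the deformation with coefficient `muT 0 h 0 = 0` (`Intw (s x) (F k2 0 x) (nq 0)`, and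
`nq 0 = id`), so `F k2 0 x = ± s x` for every `x` (as in the proof of IVR (4): the two Moebius maps and
their poles agree), and `PressureLE.conj` with `B = 1` costs `0`.  Triangle inequality: `dist_tri`. -/
def St_TX3 : Prop := Rep2 → DeF → VeQ → St_KBD → St_IVR →
  Pool.Agent.Helper69.QC.St_THC → (∀ z, nq (fun _ => 0) z = z) →
  ∀ (g : ℕ), 2 ≤ g → ∀ (s : SurfaceGroup g →* SL) (N : Subgroup (SurfaceGroup g)) (F0 F1 : Set ℂ)
    (h : ℂ → ℂ) (c r0 M : ℝ), Pkg s N F0 F1 h c r0 M → ∃ B : ℝ, 0 ≤ B ∧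
    ∀ U : (SurfaceGroup g →* SL) → Ultrafilter ℝ,
    (∀ ρ, IsQF ρ → Adapted (U ρ) ρ) → ∀ (k' : ℝ) (κ : ℂ → ℂ) (ρ : SurfaceGroup g →* SL),
      Def s (MulEquiv.refl (SurfaceGroup g)) k' κ ρ → (∀ z, 1 ≤ ‖z‖ → κ z = 0) →
      pressureDist U ρ s ≤ ENNReal.ofReal B

end Pool.Agent.Helper69.QT
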